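import Pool.Agent.Helper97.FQ.Iwa
import Pool.Agent.Helper78.BM.Phi
import Pool.Agent.Helper66.FR.XP7

/-!
# Project FQ (MP_0f6f3f_an): Iwasawa decompositions in the form `hQK` of layer SEC6

`G = Ctr b · cen b · K` for the sequences `b n = ea (c n 1_j)` and `b n = ea (-(c n) 1_j)`, `c > 0`.
-/

set_option autoImplicit false

open Filter Topology

namespace Pool.Agent.Helper84.GDL.GD

open Pool.Agent.Helper66.FR Pool.Agent.Helper78.BM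

variable {𝔾 : Type} [Group 𝔾] [TopologicalSpace 𝔾] [IsTopologicalGroup 𝔾] {ι : Type} [Fintype ι] [DecidableEq ι] (D : GD 𝔾 ι)

theorem ea_single_inv (j : ι) (s : ℝ) : (D.ea (Pi.single j s))⁻¹ = D.ea (Pi.single j (-s)) := by
  rw [← D.ea_neg, ← Pi.single_neg]

theorem tendsto_hyper {c : ℝ} (hc : 0 < c) : Tendsto (fun n : ℕ => c * (n : ℝ)) (hyperfilter ℕ : Filter ℕ) atTop :=
  (tendsto_natCast_atTop_atTop.const_mul_atTop hc).mono_left Nat.hyperfilter_le_atTop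

/-- `hQK` for the sequence `a_{cn}`, `c > 0`. -/
theorem hQK (j : ι) {c : ℝ} (hc : 0 < c) {b : ℕ → 𝔾} (hb : ∀ n : ℕ, b n = D.ea (Pi.single j (c * n))) (g : 𝔾) :
    ∃ x ∈ Ctr b, ∃ y ∈ cen b, ∃ k ∈ D.K, g = x * y * k := by
  obtain ⟨x, y, k, hk, hg, hy, hx⟩ := D.iwa' j g
  refine ⟨x, ?_, y, ?_, k, hk, hg⟩
  · have h1 := hx.comp (tendsto_hyper hc)
    refine h1.congr fun n => ?_
    rw [Function.comp_apply, hb, D.ea_single_inv]
  · rw [Subgroup.mem_centralizer_iff]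
    rintro _ ⟨n, rfl⟩
    rw [hb, hy]

/-- `hQK` for the sequence `a_{-cn}`, `c > 0`. -/
theorem hQK' (j : ι) {c : ℝ} (hc : 0 < c) {b : ℕ → 𝔾} (hb : ∀ n : ℕ, b n = D.ea (Pi.single j (-(c * n)))) (g : 𝔾) :
    ∃ x ∈ Ctr b, ∃ y ∈ cen b, ∃ k ∈ D.K, g = x * y * k := by
  obtain ⟨x, y, k, hk, hg, hy, hx⟩ := D.iwa j g
  refine ⟨x, ?_, y, ?_, k, hk, hg⟩
  · have h1 := hx.comp (tendsto_hyper hc)
    refine h1.congr fun n => ?_
    rw [Function.comp_apply, hb, D.ea_single_inv, neg_neg]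
  · rw [Subgroup.mem_centralizer_iff]
    rintro _ ⟨n, rfl⟩
    rw [hb, hy]

/-- The sequence `a_n`. -/
theorem hQK1 (j : ι) (g : 𝔾) : ∃ x ∈ Ctr fun n : ℕ => D.ea (Pi.single j (n : ℝ)), ∃ y ∈ cen fun n : ℕ => D.ea (Pi.single j (n : ℝ)),
    ∃ k ∈ D.K, g = x * y * k :=
  D.hQK j one_pos (fun n => by rw [one_mul]) g

/-- The sequence `a_{-n}`. -/
theorem hQK1' (j : ι) (g : 𝔾) : ∃ x ∈ Ctr fun n : ℕ => D.ea (Pi.single j (-(n : ℝ))), ∃ y ∈ cen fun n : ℕ => D.ea (Pi.single j (-(n : ℝ))),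
    ∃ k ∈ D.K, g = x * y * k :=
  D.hQK' j one_pos (fun n => by rw [one_mul]) g

end Pool.Agent.Helper84.GDL.GD
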