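import Pool.Agent.Helper84.GD.Basic

/-!
# Project FQ (MP_0f6f3f_an), layer GD: Iwasawa decompositions

From the fields of `GD`: `kp`: `G = K P_j`; `pk`: `G = P_j^- K`; `iwa`: `g = x y k` with `x` contracted by `a_t⁻¹ . a_t`, `y` in the centraliser of the `a_t`, `k ∈ K`; `iwa'`: the same with `a_t . a_t⁻¹`
(`a_t = ea (t 1_j)`). `iwaC`, `iwaC'`: the form used in layer SEC6, for the sequences `a_{cn}`, `c > 0`, and `a_{-cn}`.
-/

set_option autoImplicit false

open Filter Topology Matrix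

namespace Pool.Agent.Helper84.GDL

namespace GD

variable {𝔾 : Type} [Group 𝔾] [TopologicalSpace 𝔾] {ι : Type} [Fintype ι] [DecidableEq ι] (D : GD 𝔾 ι)

theorem rho_single (l j : ι) (s : ℝ) :
    D.rho l (D.ea (Pi.single j s)) = diagonal fun a => Real.exp ((D.top l j - D.n l a j) * s) := by
  rw [D.rho_ea]
  congr 1
  funext a
  congr 1
  rw [Finset.sum_eq_single j]
  · rw [Pi.single_eq_same]
  · intro m _ hm
    rw [Pi.single_eq_of_ne hm, mul_zero]
  · intro h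
    exact absurd (Finset.mem_univ _) h

/-- Entries of the conjugates. -/
theorem rho_conj (l j : ι) (s : ℝ) (x : 𝔾) (a b : Fin (D.d l + 1)) :
    D.rho l (D.ea (Pi.single j s) * x * D.ea (Pi.single j (-s))) a b =
      Real.exp (s * ((D.n l b j : ℝ) - D.n l a j)) * D.rho l x a b := by
  rw [map_mul, map_mul, D.rho_single, D.rho_single, mul_diagonal, diagonal_mul]
  have h : Real.exp (s * ((D.n l b j : ℝ) - D.n l a j)) =
      Real.exp ((D.top l j - D.n l a j) * s) * Real.exp ((D.top l j - D.n l b j) * -s) := by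
    rw [← Real.exp_add]
    congr 1
    ring
  rw [h]
  ring

end GD

theorem zero_of_bdd {u v M : ℝ} (hv : 0 < v) (h : ∀ᶠ t : ℝ in atTop, |Real.exp (t * v) * u| ≤ M) : u = 0 := by
  by_contra hu
  have h1 : Tendsto (fun t : ℝ => Real.exp (t * v) * |u|) atTop atTop :=
    (Real.tendsto_exp_atTop.comp (tendsto_id.atTop_mul_const hv)).atTop_mul_const (abs_pos.2 hu)
  obtain ⟨t, h2, h3⟩ := (h.and (h1.eventually (eventually_gt_atTop M))).exists
  rw [abs_mul, Real.abs_exp] at h2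
  exact absurd h3 (not_lt.2 h2)

namespace GD

variable {𝔾 : Type} [Group 𝔾] [TopologicalSpace 𝔾] {ι : Type} [Fintype ι] [DecidableEq ι] (D : GD 𝔾 ι)

/-- Entries of a contracted element. -/
theorem ent_contr (j : ι) (ε : ℝ) {x : 𝔾}
    (h : Tendsto (fun t : ℝ => D.ea (Pi.single j (ε * t)) * x * D.ea (Pi.single j (-(ε * t)))) atTop (𝓝 1))
    (l : ι) (a b : Fin (D.d l + 1)) : (0 < ε * ((D.n l b j : ℝ) - D.n l a j) → D.rho l x a b = 0) ∧
      (D.n l b j = D.n l a j → D.rho l x a b = (1 : Matrix (Fin (D.d l + 1)) (Fin (D.d l + 1)) ℝ) a b) := by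
  have h1 : Tendsto (fun t : ℝ => Real.exp (t * (ε * ((D.n l b j : ℝ) - D.n l a j))) * D.rho l x a b) atTop
      (𝓝 ((1 : Matrix (Fin (D.d l + 1)) (Fin (D.d l + 1)) ℝ) a b)) := by
    have h2 := (((D.rho_cont l).matrix_elem a b).tendsto 1).comp h
    rw [map_one] at h2
    refine h2.congr fun t => ?_
    rw [Function.comp_apply, D.rho_conj]
    congr 2
    ring
  constructor
  · intro hv
    have h3 := h1.abs
    refine zero_of_bdd hv (M := |(1 : Matrix (Fin (D.d l + 1)) (Fin (D.d l + 1)) ℝ) a b| + 1) ?_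
    exact (h3.eventually (gt_mem_nhds (lt_add_one _))).mono fun t ht => ht.le
  · intro he
    have h4 : (fun t : ℝ => Real.exp (t * (ε * ((D.n l b j : ℝ) - D.n l a j))) * D.rho l x a b) = fun _ => D.rho l x a b := by
      funext t
      rw [he, sub_self, mul_zero, mul_zero, Real.exp_zero, one_mul]
    rw [h4] at h1
    exact tendsto_nhds_unique tendsto_const_nhds h1

/-- An element which is contracted in one direction and bounded in the other one is in the kernel of all representations. -/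
theorem rho_one (j : ι) (ε : ℝ) (hε : ε ≠ 0) {x : 𝔾}
    (h : Tendsto (fun t : ℝ => D.ea (Pi.single j (ε * t)) * x * D.ea (Pi.single j (-(ε * t)))) atTop (𝓝 1)) {B : Set 𝔾}
    (hB : IsCompact B) (hx : ∀ t : ℝ, 0 ≤ t → D.ea (Pi.single j (-(ε * t))) * x * D.ea (Pi.single j (ε * t)) ∈ B) (l : ι) :
    D.rho l x = 1 := by
  ext a b
  obtain ⟨h1, h2⟩ := D.ent_contr j ε h l a b
  by_cases he : D.n l b j = D.n l a j
  · exact h2 he
  · have hab : a ≠ b := fun hab => he (by rw [hab])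
    rw [one_apply_ne hab]
    rcases lt_or_ge 0 (ε * ((D.n l b j : ℝ) - D.n l a j)) with h3 | h3
    · exact h1 h3
    · have h4 : ε * ((D.n l b j : ℝ) - D.n l a j) ≠ 0 :=
        mul_ne_zero hε (sub_ne_zero.2 fun h => he (by exact_mod_cast h))
      have h5 : 0 < -(ε * ((D.n l b j : ℝ) - D.n l a j)) := neg_pos.2 (lt_of_le_of_ne h3 h4)
      obtain ⟨M, hM⟩ := hB.exists_bound_of_continuousOn ((D.rho_cont l).matrix_elem a b).continuousOn
      refine zero_of_bdd h5 (M := M) ((eventually_ge_atTop 0).mono fun t ht => ?_)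
      have h6 := hM _ (hx t ht)
      have h7 := D.rho_conj l j (-(ε * t)) x a b
      rw [neg_neg] at h7
      rw [h7, Real.norm_eq_abs] at h6
      refine le_trans (le_of_eq ?_) h6
      congr 3
      ring

/-- The kernel is contained in `K`. -/
theorem ker_mem {x : 𝔾} (h : ∀ l, D.rho l x = 1) : x ∈ D.K := by
  have h1 : ∀ l, D.tw l x = 0 := by
    intro l
    rw [D.tw_eq, h l]
    have h2 := D.norm_orth (l := l) D.K.one_mem
    rw [map_one] at h2
    rw [h2, Real.log_one]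
  have h2 : D.mu x = 0 := by
    funext i
    rw [D.mu_eq]
    exact Finset.sum_eq_zero fun l _ => by rw [h1, mul_zero]
  rw [D.kak x, h2, D.ea_zero, mul_one]
  exact D.K.mul_mem (D.kL_mem x) (D.kR_mem x)

theorem n_lt {j : ι} {i : Fin (D.d j + 1)} (hi : i ≠ 0) : (0 : ℝ) < (D.n j i j : ℝ) - D.n j 0 j := by
  rw [D.n_zero, Nat.cast_zero, sub_zero]
  exact_mod_cast D.n_pos j i hi

/-- `P_j` is stable under products. -/
theorem lin_mul {j : ι} {g h : 𝔾} (hh : ∀ i, i ≠ 0 → D.rho j h i 0 = 0) (i : Fin (D.d j + 1)) :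
    D.rho j (g * h) i 0 = D.rho j g i 0 * D.rho j h 0 0 := by
  rw [map_mul, mul_apply, Finset.sum_eq_single 0]
  · intro k _ hk
    rw [hh k hk, mul_zero]
  · intro h
    exact absurd (Finset.mem_univ _) h

theorem lin_00 {j : ι} {g : 𝔾} (hg : ∀ i, i ≠ 0 → D.rho j g i 0 = 0) : D.rho j g 0 0 ≠ 0 := by
  intro h0
  have h1 : (D.rho j g⁻¹ * D.rho j g) 0 0 = 1 := by rw [← map_mul, inv_mul_cancel, map_one, one_apply_eq]
  rw [mul_apply, Finset.sum_eq_zero] at h1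
  · exact zero_ne_one h1
  · intro k _
    by_cases hk : k = 0
    · rw [hk, h0, mul_zero]
    · rw [hg k hk, mul_zero]

theorem lin_inv {j : ι} {g : 𝔾} (hg : ∀ i, i ≠ 0 → D.rho j g i 0 = 0) : ∀ i, i ≠ 0 → D.rho j g⁻¹ i 0 = 0 := by
  intro i hi
  have h1 : (D.rho j g⁻¹ * D.rho j g) i 0 = 0 := by rw [← map_mul, inv_mul_cancel, map_one, one_apply_ne hi]
  rw [mul_apply, Finset.sum_eq_single 0] at h1
  · exact (mul_eq_zero.1 h1).resolve_right (D.lin_00 hg)
  · intro k _ hk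
    rw [hg k hk, mul_zero]
  · intro h
    exact absurd (Finset.mem_univ _) h

theorem hyp_mul {j : ι} {g h : 𝔾} (hg : ∀ i, i ≠ 0 → D.rho j g 0 i = 0) (i : Fin (D.d j + 1)) :
    D.rho j (g * h) 0 i = D.rho j g 0 0 * D.rho j h 0 i := by
  rw [map_mul, mul_apply, Finset.sum_eq_single 0]
  · intro k _ hk
    rw [hg k hk, zero_mul]
  · intro h
    exact absurd (Finset.mem_univ _) h

theorem hyp_00 {j : ι} {g : 𝔾} (hg : ∀ i, i ≠ 0 → D.rho j g 0 i = 0) : D.rho j g 0 0 ≠ 0 := by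
  intro h0
  have h1 : (D.rho j g * D.rho j g⁻¹) 0 0 = 1 := by rw [← map_mul, mul_inv_cancel, map_one, one_apply_eq]
  rw [mul_apply, Finset.sum_eq_zero] at h1
  · exact zero_ne_one h1
  · intro k _
    by_cases hk : k = 0
    · rw [hk, h0, zero_mul]
    · rw [hg k hk, zero_mul]

theorem hyp_inv {j : ι} {g : 𝔾} (hg : ∀ i, i ≠ 0 → D.rho j g 0 i = 0) : ∀ i, i ≠ 0 → D.rho j g⁻¹ 0 i = 0 := by
  intro i hi
  have h1 : D.rho j (g * g⁻¹) 0 i = 0 := by rw [mul_inv_cancel, map_one, one_apply_ne (Ne.symm hi)]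
  rw [D.hyp_mul hg] at h1
  exact (mul_eq_zero.1 h1).resolve_left (D.hyp_00 hg)

/-- Elements of the centraliser fix the base line and the base hyperplane. -/
theorem cen_lin {j : ι} {l : 𝔾} (hl : ∀ t : ℝ, l * D.ea (Pi.single j t) = D.ea (Pi.single j t) * l) {i : Fin (D.d j + 1)} (hi : i ≠ 0) :
    D.rho j l i 0 = 0 ∧ D.rho j l 0 i = 0 := by
  have h1 : D.ea (Pi.single j (1 : ℝ)) * l * D.ea (Pi.single j (-1)) = l := by
    rw [← hl 1, mul_assoc, ← D.ea_add, ← Pi.single_add, add_neg_cancel, Pi.single_zero, D.ea_zero, mul_one]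
  have hn := D.n_lt hi
  constructor
  · have h2 := D.rho_conj j j 1 l i 0
    rw [h1] at h2
    have h3 : Real.exp (1 * ((D.n j 0 j : ℝ) - D.n j i j)) ≠ 1 := by
      rw [Ne, Real.exp_eq_one_iff]
      linarith
    have h4 : (Real.exp (1 * ((D.n j 0 j : ℝ) - D.n j i j)) - 1) * D.rho j l i 0 = 0 := by
      linear_combination (-1 : ℝ) * h2
    exact (mul_eq_zero.1 h4).resolve_left (sub_ne_zero.2 h3)
  · have h2 := D.rho_conj j j 1 l 0 i
    rw [h1] at h2
    have h3 : Real.exp (1 * ((D.n j i j : ℝ) - D.n j 0 j)) ≠ 1 := by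
      rw [Ne, Real.exp_eq_one_iff]
      linarith
    have h4 : (Real.exp (1 * ((D.n j i j : ℝ) - D.n j 0 j)) - 1) * D.rho j l 0 i = 0 := by
      linear_combination (-1 : ℝ) * h2
    exact (mul_eq_zero.1 h4).resolve_left (sub_ne_zero.2 h3)

/-- Elements contracted by `a_t⁻¹ . a_t` fix the base line. -/
theorem contr_lin {j : ι} {y : 𝔾} (hy : Tendsto (fun t : ℝ => D.ea (Pi.single j (-t)) * y * D.ea (Pi.single j t)) atTop (𝓝 1))
    {i : Fin (D.d j + 1)} (hi : i ≠ 0) : D.rho j y i 0 = 0 := by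
  refine (D.ent_contr j (-1) ?_ j i 0).1 (by linarith [D.n_lt hi])
  refine hy.congr fun t => ?_
  rw [neg_one_mul, neg_neg]

/-- Elements contracted by `a_t . a_t⁻¹` fix the base hyperplane. -/
theorem contr_hyp {j : ι} {x : 𝔾} (hx : Tendsto (fun t : ℝ => D.ea (Pi.single j t) * x * D.ea (Pi.single j (-t))) atTop (𝓝 1))
    {i : Fin (D.d j + 1)} (hi : i ≠ 0) : D.rho j x 0 i = 0 := by
  refine (D.ent_contr j 1 ?_ j 0 i).1 (by linarith [D.n_lt hi])
  refine hx.congr fun t => ?_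
  rw [one_mul]

/-- A nonzero diagonal matrix of rank one whose largest entry is at `0`. -/
theorem rank_one' {m : Type} {y x : m → ℝ} {o : m} (hd : ∀ a b, a ≠ b → y a * x b = 0) (hm : ∀ a, |y a * x a| ≤ y o * x o) :
    ((∃ b, x b ≠ 0) → ∀ a, a ≠ o → y a = 0) ∧ ((∃ b, y b ≠ 0) → ∀ a, a ≠ o → x a = 0) := by
  have key : ∀ y x : m → ℝ, (∀ a b, a ≠ b → y a * x b = 0) → (∀ a, |y a * x a| ≤ y o * x o) → (∃ b, x b ≠ 0) →
      ∀ a, a ≠ o → y a = 0 := by
    intro y x hd hm hx a ha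
    by_contra hya
    obtain ⟨b, hb⟩ := hx
    have hab : a = b := by
      by_contra hne
      have := hd a b hne
      exact (mul_ne_zero hya hb) this
    subst hab
    have h1 : 0 < y o * x o := lt_of_lt_of_le (abs_pos.2 (mul_ne_zero hya hb)) (hm a)
    have h2 : x o ≠ 0 := fun h => by rw [h, mul_zero] at h1; exact lt_irrefl _ h1
    exact (mul_ne_zero hya h2) (hd a o ha)
  refine ⟨key y x hd hm, key x y (fun a b hab => ?_) fun a => ?_⟩
  · rw [mul_comm]
    exact hd b a (Ne.symm hab)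
  · rw [mul_comm (x a), mul_comm (x o)]
    exact hm a

omit [Group 𝔾] in
theorem exists_lim' {C : Set 𝔾} (hC : IsCompact C) {k : ℕ → 𝔾} (hk : ∀ n, k n ∈ C) :
    ∃ x ∈ C, Tendsto k (hyperfilter ℕ : Filter ℕ) (𝓝 x) := by
  have h1 : ((hyperfilter ℕ).map k : Filter 𝔾) ≤ 𝓟 C := by
    rw [le_principal_iff, Ultrafilter.coe_map, mem_map]
    exact Filter.univ_mem' fun m => hk m
  obtain ⟨x, hx, hx'⟩ := hC.ultrafilter_le_nhds ((hyperfilter ℕ).map k) h1
  exact ⟨x, hx, hx'⟩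

theorem exists_ne_col [IsTopologicalGroup 𝔾] (j : ι) (x : 𝔾) (o : Fin (D.d j + 1)) : (∃ b, D.rho j x b o ≠ 0) ∧ ∃ b, D.rho j x o b ≠ 0 := by
  constructor
  · by_contra hcon
    push Not at hcon
    have h1 : (D.rho j x⁻¹ * D.rho j x) o o = 1 := by rw [← map_mul, inv_mul_cancel, map_one, one_apply_eq]
    rw [mul_apply, Finset.sum_eq_zero fun b _ => by rw [hcon b, mul_zero]] at h1
    exact zero_ne_one h1
  · by_contra hcon
    push Not at hcon
    have h1 : (D.rho j x * D.rho j x⁻¹) o o = 1 := by rw [← map_mul, mul_inv_cancel, map_one, one_apply_eq]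
    rw [mul_apply, Finset.sum_eq_zero fun b _ => by rw [hcon b, zero_mul]] at h1
    exact zero_ne_one h1

/-- The limit of the normalised matrices of `a_m`. -/
theorem lim_diag (j : ι) : Tendsto (fun m : ℕ => Real.exp (-((m : ℝ) * D.top j j)) • D.rho j (D.ea (Pi.single j (m : ℝ)))) (hyperfilter ℕ : Filter ℕ)
    (𝓝 (diagonal fun k => if k = 0 then (1 : ℝ) else 0)) := by
  have hD' : ∀ k : Fin (D.d j + 1), Tendsto (fun m : ℕ => Real.exp (-((m : ℝ) * (D.n j k j : ℝ)))) (hyperfilter ℕ : Filter ℕ)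
      (𝓝 (if k = 0 then (1 : ℝ) else 0)) := by
    intro k
    by_cases hk : k = 0
    · rw [if_pos hk, hk]
      simp only [D.n_zero, Nat.cast_zero, mul_zero, neg_zero, Real.exp_zero]
      exact tendsto_const_nhds
    · rw [if_neg hk]
      have h3 : Tendsto (fun m : ℕ => -((m : ℝ) * (D.n j k j : ℝ))) atTop atBot := by
        rw [tendsto_neg_atBot_iff]
        exact tendsto_natCast_atTop_atTop.atTop_mul_const (by exact_mod_cast D.n_pos j k hk)
      exact (Real.tendsto_exp_atBot.comp h3).mono_left Nat.hyperfilter_le_atTop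
  have hdc : Continuous fun v : Fin (D.d j + 1) → ℝ => (diagonal v : Matrix (Fin (D.d j + 1)) (Fin (D.d j + 1)) ℝ) :=
    continuous_id.matrix_diagonal
  refine ((hdc.tendsto _).comp (tendsto_pi_nhds.2 hD')).congr fun m => ?_
  rw [Function.comp_apply, D.rho_single, ← diagonal_smul]
  congr 1
  funext k
  rw [Pi.smul_apply, smul_eq_mul, ← Real.exp_add]
  congr 1
  ring

/-- Limits of rank one: `y x^T` is diagonal with the largest entry at `0`. -/
theorem lim_rank {j : ι} {μ : ℕ → ι → ℝ} (hμ : ∀ m i, 0 ≤ μ m i) {y x : Fin (D.d j + 1) → ℝ}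
    (h : ∀ a b, Tendsto (fun m : ℕ => Real.exp (-((m : ℝ) * D.top j j)) * (D.rho j (D.ea (μ m))) a b) (hyperfilter ℕ : Filter ℕ) (𝓝 (y a * x b))) :
    ((∃ b, x b ≠ 0) → ∀ a, a ≠ 0 → y a = 0) ∧ ((∃ b, y b ≠ 0) → ∀ a, a ≠ 0 → x a = 0) := by
  refine rank_one' (fun a b hab => ?_) fun a => ?_
  · refine tendsto_nhds_unique (h a b) ?_
    have : (fun m : ℕ => Real.exp (-((m : ℝ) * D.top j j)) * (D.rho j (D.ea (μ m))) a b) = fun _ => 0 := by
      funext m
      rw [D.rho_ea, diagonal_apply_ne _ hab, mul_zero]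
    rw [this]
    exact tendsto_const_nhds
  · refine le_of_tendsto_of_tendsto (h a a).abs (h 0 0) (Filter.Eventually.of_forall fun m => ?_)
    change |Real.exp (-((m : ℝ) * D.top j j)) * (D.rho j (D.ea (μ m))) a a| ≤ Real.exp (-((m : ℝ) * D.top j j)) * (D.rho j (D.ea (μ m))) 0 0
    rw [D.rho_ea, diagonal_apply_eq, diagonal_apply_eq, abs_mul, Real.abs_exp, Real.abs_exp]
    refine mul_le_mul_of_nonneg_left (Real.exp_le_exp.2 ?_) (Real.exp_pos _).le
    refine Finset.sum_le_sum fun q _ => mul_le_mul_of_nonneg_right ?_ (hμ m q)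
    rw [D.n_zero, Nat.cast_zero, sub_zero]
    linarith [(Nat.cast_nonneg (D.n j a q) : (0 : ℝ) ≤ D.n j a q)]

/-- `G = K P_j`. -/
theorem kp [IsTopologicalGroup 𝔾] (j : ι) (g : 𝔾) : ∃ k ∈ D.K, ∃ p : 𝔾, (∀ i, i ≠ 0 → D.rho j p i 0 = 0) ∧ g = k * p := by
  have hg : ∀ m : ℕ, g * D.ea (Pi.single j (m : ℝ)) = D.kL (g * D.ea (Pi.single j (m : ℝ))) *
      D.ea (D.mu (g * D.ea (Pi.single j (m : ℝ)))) * D.kR (g * D.ea (Pi.single j (m : ℝ))) := fun m => D.kak _
  obtain ⟨x1, hx1, hl1⟩ := exists_lim' D.cpt (k := fun m : ℕ => D.kL (g * D.ea (Pi.single j (m : ℝ)))) fun m => D.kL_mem _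
  obtain ⟨x2, hx2, hl2⟩ := exists_lim' D.cpt (k := fun m : ℕ => D.kR (g * D.ea (Pi.single j (m : ℝ)))) fun m => D.kR_mem _
  have hx1' : x1 ∈ D.K := hx1
  refine ⟨x1, hx1', x1⁻¹ * g, ?_, by group⟩
  have hc : Continuous fun z : 𝔾 => D.rho j z⁻¹ := (D.rho_cont j).comp continuous_inv
  have hlim := ((((hc.tendsto x1).comp hl1).mul_const (D.rho j g)).mul (D.lim_diag j)).mul ((hc.tendsto x2).comp hl2)
  refine (D.lim_rank (μ := fun m => D.mu (g * D.ea (Pi.single j (m : ℝ)))) (fun m i => D.mu_nonneg _ i) (y := fun a => D.rho j (x1⁻¹ * g) a 0)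
    (x := fun b => D.rho j x2⁻¹ 0 b) ?_).1 (D.exists_ne_col j x2⁻¹ 0).2
  intro a b
  have h1 := (Continuous.matrix_elem continuous_id a b).continuousAt.tendsto.comp hlim
  have h2 : (D.rho j x1⁻¹ * D.rho j g * (diagonal (fun k => if k = 0 then (1 : ℝ) else 0) : Matrix (Fin (D.d j + 1)) (Fin (D.d j + 1)) ℝ) * D.rho j x2⁻¹) a b =
      D.rho j (x1⁻¹ * g) a 0 * D.rho j x2⁻¹ 0 b := by
    rw [mul_apply, Finset.sum_eq_single 0]
    · rw [mul_diagonal, if_pos rfl, mul_one, map_mul]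
    · intro c _ hc
      rw [mul_diagonal, if_neg hc, mul_zero, zero_mul]
    · intro h
      exact absurd (Finset.mem_univ _) h
  change Tendsto _ _ (𝓝 (D.rho j (x1⁻¹ * g) a 0 * D.rho j x2⁻¹ 0 b))
  rw [← h2]
  refine h1.congr fun m => ?_
  change (D.rho j (D.kL (g * D.ea (Pi.single j (m : ℝ))))⁻¹ * D.rho j g *
    (Real.exp (-((m : ℝ) * D.top j j)) • D.rho j (D.ea (Pi.single j (m : ℝ)))) * D.rho j (D.kR (g * D.ea (Pi.single j (m : ℝ))))⁻¹) a b = _
  rw [Matrix.mul_smul, Matrix.smul_mul, Matrix.smul_apply, smul_eq_mul]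
  congr 2
  rw [← map_mul, ← map_mul, ← map_mul]
  have h3 : D.ea (D.mu (g * D.ea (Pi.single j (m : ℝ)))) = (D.kL (g * D.ea (Pi.single j (m : ℝ))))⁻¹ *
      (D.kL (g * D.ea (Pi.single j (m : ℝ))) * D.ea (D.mu (g * D.ea (Pi.single j (m : ℝ)))) * D.kR (g * D.ea (Pi.single j (m : ℝ)))) *
      (D.kR (g * D.ea (Pi.single j (m : ℝ))))⁻¹ := by group
  rw [h3, ← hg m]
  group

/-- `G = P_j^- K`. -/
theorem pk [IsTopologicalGroup 𝔾] (j : ι) (g : 𝔾) : ∃ p : 𝔾, (∀ i, i ≠ 0 → D.rho j p 0 i = 0) ∧ ∃ k ∈ D.K, g = p * k := by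
  have hg : ∀ m : ℕ, D.ea (Pi.single j (m : ℝ)) * g = D.kL (D.ea (Pi.single j (m : ℝ)) * g) *
      D.ea (D.mu (D.ea (Pi.single j (m : ℝ)) * g)) * D.kR (D.ea (Pi.single j (m : ℝ)) * g) := fun m => D.kak _
  obtain ⟨x1, hx1, hl1⟩ := exists_lim' D.cpt (k := fun m : ℕ => D.kL (D.ea (Pi.single j (m : ℝ)) * g)) fun m => D.kL_mem _
  obtain ⟨x2, hx2, hl2⟩ := exists_lim' D.cpt (k := fun m : ℕ => D.kR (D.ea (Pi.single j (m : ℝ)) * g)) fun m => D.kR_mem _
  have hx2' : x2 ∈ D.K := hx2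
  refine ⟨g * x2⁻¹, ?_, x2, hx2', by group⟩
  have hc : Continuous fun z : 𝔾 => D.rho j z⁻¹ := (D.rho_cont j).comp continuous_inv
  have hlim := ((((hc.tendsto x1).comp hl1).mul (D.lim_diag j)).mul_const (D.rho j g)).mul ((hc.tendsto x2).comp hl2)
  refine (D.lim_rank (μ := fun m => D.mu (D.ea (Pi.single j (m : ℝ)) * g)) (fun m i => D.mu_nonneg _ i) (y := fun a => D.rho j x1⁻¹ a 0)
    (x := fun b => D.rho j (g * x2⁻¹) 0 b) ?_).2 (D.exists_ne_col j x1⁻¹ 0).1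
  intro a b
  have h1 := (Continuous.matrix_elem continuous_id a b).continuousAt.tendsto.comp hlim
  have h2 : (D.rho j x1⁻¹ * (diagonal (fun k => if k = 0 then (1 : ℝ) else 0) : Matrix (Fin (D.d j + 1)) (Fin (D.d j + 1)) ℝ) * D.rho j g * D.rho j x2⁻¹) a b =
      D.rho j x1⁻¹ a 0 * D.rho j (g * x2⁻¹) 0 b := by
    rw [mul_assoc, ← map_mul, mul_apply, Finset.sum_eq_single 0]
    · rw [mul_diagonal, if_pos rfl, mul_one]
    · intro c _ hc
      rw [mul_diagonal, if_neg hc, mul_zero, zero_mul]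
    · intro h
      exact absurd (Finset.mem_univ _) h
  change Tendsto _ _ (𝓝 (D.rho j x1⁻¹ a 0 * D.rho j (g * x2⁻¹) 0 b))
  rw [← h2]
  refine h1.congr fun m => ?_
  change (D.rho j (D.kL (D.ea (Pi.single j (m : ℝ)) * g))⁻¹ *
    (Real.exp (-((m : ℝ) * D.top j j)) • D.rho j (D.ea (Pi.single j (m : ℝ)))) * D.rho j g * D.rho j (D.kR (D.ea (Pi.single j (m : ℝ)) * g))⁻¹) a b = _
  rw [Matrix.mul_smul, Matrix.smul_mul, Matrix.smul_mul, Matrix.smul_apply, smul_eq_mul]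
  congr 2
  rw [← map_mul, ← map_mul, ← map_mul]
  have h3 : D.ea (D.mu (D.ea (Pi.single j (m : ℝ)) * g)) = (D.kL (D.ea (Pi.single j (m : ℝ)) * g))⁻¹ *
      (D.kL (D.ea (Pi.single j (m : ℝ)) * g) * D.ea (D.mu (D.ea (Pi.single j (m : ℝ)) * g)) * D.kR (D.ea (Pi.single j (m : ℝ)) * g)) *
      (D.kR (D.ea (Pi.single j (m : ℝ)) * g))⁻¹ := by group
  rw [h3, ← hg m]
  group

/-- **Iwasawa decomposition**, `x` contracted by `a_t . a_t⁻¹`. -/
theorem iwa' [IsTopologicalGroup 𝔾] (j : ι) (g : 𝔾) : ∃ x y k : 𝔾, k ∈ D.K ∧ g = x * y * k ∧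
    (∀ t : ℝ, y * D.ea (Pi.single j t) = D.ea (Pi.single j t) * y) ∧
    Tendsto (fun t : ℝ => D.ea (Pi.single j t) * x * D.ea (Pi.single j (-t))) atTop (𝓝 1) := by
  obtain ⟨p, hp, k, hk, rfl⟩ := D.pk j g
  obtain ⟨B, _, hB⟩ := D.cell j |D.rho j p 0 0| (abs_pos.2 (D.hyp_00 hp)) {p} isCompact_singleton
  obtain ⟨x, _, l, _, y, _, he, hx, hl, hy⟩ := hB p rfl le_rfl
  have hy1 : ∀ i, i ≠ 0 → D.rho j y 0 i = 0 := by
    have e1 : y = (x * l)⁻¹ * p := by rw [he]; group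
    have hxl : ∀ i, i ≠ 0 → D.rho j (x * l) 0 i = 0 := by
      intro i hi
      rw [D.hyp_mul (fun i hi => D.contr_hyp hx hi), (D.cen_lin hl hi).2, mul_zero]
    intro i hi
    rw [e1, D.hyp_mul (D.hyp_inv hxl), hp i hi, mul_zero]
  obtain ⟨B', hB', hB''⟩ := D.par' j {y} isCompact_singleton
  have hyK : y ∈ D.K := by
    refine D.ker_mem fun l' => D.rho_one j (-1) (by norm_num) ?_ hB' (fun t ht => ?_) l'
    · refine hy.congr fun t => ?_
      rw [neg_one_mul, neg_neg]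
    · have := hB'' y rfl hy1 t ht
      rw [neg_one_mul, neg_neg]
      exact this
  exact ⟨x, l, y * k, D.K.mul_mem hyK hk, by rw [he]; group, hl, hx⟩

/-- **Iwasawa decomposition**, `x` contracted by `a_t⁻¹ . a_t`. -/
theorem iwa [IsTopologicalGroup 𝔾] (j : ι) (g : 𝔾) : ∃ x y k : 𝔾, k ∈ D.K ∧ g = x * y * k ∧
    (∀ t : ℝ, y * D.ea (Pi.single j t) = D.ea (Pi.single j t) * y) ∧
    Tendsto (fun t : ℝ => D.ea (Pi.single j (-t)) * x * D.ea (Pi.single j t)) atTop (𝓝 1) := by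
  obtain ⟨k, hk, p', hp', hg'⟩ := D.kp j g⁻¹
  obtain ⟨p, hpp⟩ : ∃ p, p = p'⁻¹ := ⟨_, rfl⟩
  have hg : g = p * k⁻¹ := by rw [← inv_inv g, hg', _root_.mul_inv_rev, hpp]
  have hp : ∀ i, i ≠ 0 → D.rho j p i 0 = 0 := by
    rw [hpp]
    exact D.lin_inv hp'
  obtain ⟨B, _, hB⟩ := D.cell j |D.rho j p 0 0| (abs_pos.2 (D.lin_00 hp)) {p} isCompact_singleton
  obtain ⟨x, _, l, _, y, _, he, hx, hl, hy⟩ := hB p rfl le_rfl
  have hx1 : ∀ i, i ≠ 0 → D.rho j x i 0 = 0 := by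
    have e1 : x = p * (l * y)⁻¹ := by rw [he]; group
    have hly : ∀ i, i ≠ 0 → D.rho j (l * y) i 0 = 0 := by
      intro i hi
      rw [D.lin_mul (fun i hi => D.contr_lin hy hi), (D.cen_lin hl hi).1, zero_mul]
    intro i hi
    rw [e1, D.lin_mul (D.lin_inv hly), hp i hi, zero_mul]
  obtain ⟨B', hB', hB''⟩ := D.par j {x} isCompact_singleton
  have hxr : ∀ l', D.rho l' x = 1 := by
    intro l'
    refine D.rho_one j 1 one_ne_zero ?_ hB' (fun t ht => ?_) l'
    · refine hx.congr fun t => ?_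
      rw [one_mul]
    · have := hB'' x rfl hx1 t ht
      rw [one_mul]
      exact this
  obtain ⟨x', hx'⟩ : ∃ x', x' = (l * y)⁻¹ * x * (l * y) := ⟨_, rfl⟩
  have hx'K : x' ∈ D.K := by
    refine D.ker_mem fun l' => ?_
    rw [hx', map_mul, map_mul, hxr, mul_one, ← map_mul, inv_mul_cancel, map_one]
  refine ⟨l * y * l⁻¹, l, x' * k⁻¹, D.K.mul_mem hx'K (D.K.inv_mem hk), ?_, hl, ?_⟩
  · rw [hg, he, hx']
    group
  · have h1 : ∀ t : ℝ, D.ea (Pi.single j (-t)) * (l * y * l⁻¹) * D.ea (Pi.single j t) =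
        l * (D.ea (Pi.single j (-t)) * y * D.ea (Pi.single j t)) * l⁻¹ := by
      intro t
      have h2 : l⁻¹ * D.ea (Pi.single j t) = D.ea (Pi.single j t) * l⁻¹ := by
        have h3 := hl t
        calc l⁻¹ * D.ea (Pi.single j t) = l⁻¹ * (D.ea (Pi.single j t) * l) * l⁻¹ := by group
          _ = D.ea (Pi.single j t) * l⁻¹ := by rw [← h3]; group
      calc D.ea (Pi.single j (-t)) * (l * y * l⁻¹) * D.ea (Pi.single j t)
          = (D.ea (Pi.single j (-t)) * l) * y * (l⁻¹ * D.ea (Pi.single j t)) := by group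
        _ = (l * D.ea (Pi.single j (-t))) * y * (D.ea (Pi.single j t) * l⁻¹) := by rw [h2, ← hl (-t)]
        _ = l * (D.ea (Pi.single j (-t)) * y * D.ea (Pi.single j t)) * l⁻¹ := by group
    have h2 : Tendsto (fun t : ℝ => l * (D.ea (Pi.single j (-t)) * y * D.ea (Pi.single j t)) * l⁻¹) atTop (𝓝 1) := by
      have := (hy.const_mul l).mul_const l⁻¹
      rwa [mul_one, mul_inv_cancel] at this
    exact h2.congr fun t => (h1 t).symm

end GD

end Pool.Agent.Helper84.GDL
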